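import Pool.Agent.QDiff667609.Base

open PowerSeries Finset

namespace Pool.Agent.Results.MP_667609_co.InfiniteK

open Pool.Agent.MP667609

/-- For every `n ≥ 2` and every `k ≥ 2n²` for which there is a permutation `σ` of
`{0, …, n-2}` with `2σ(i)+1 ∣ 2k+1+2i` for all `i` (for instance for every multiple `k ≥ 2n²`
of `lcm(1, 3, …, 2n-3)`), all coefficients of `G_{k,n} - G_{k+1,n-1}` are nonnegative. -/
theorem result (n k : ℕ) (h2 : 2 ≤ n) (hk : 2 * n ^ 2 ≤ k)
    (h : ∃ σ : Equiv.Perm (Fin (n - 1)), ∀ i : Fin (n - 1),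
      2 * (σ i : ℕ) + 1 ∣ 2 * k + 1 + 2 * (i : ℕ)) (m : ℕ) :
    0 ≤ coeff m (G k n - G (k + 1) (n - 1)) :=
  infinite_family G (fun k n _ => G_mul k n) n k h2 hk h m

end Pool.Agent.Results.MP_667609_co.InfiniteK
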