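import Mathlib
import Pool.Agent.Helper868_gq.A

set_option autoImplicit false

namespace Pool.Agent.Results.MP_667609_co.Matching

open Pool.Agent.Helper868_gq

/-- If the odd numbers `2k+1, 2k+3, ..., 2k+2n-3` are divisible by distinct members of
`3, 5, ..., 2n+1`, then all coefficients of `G_{k,n} - G_{k+1,n-1}` are non-negative. -/
theorem result : ∀ n k : ℕ, 1 ≤ n → n + 1 ≤ k → ∀ σ : ℕ → ℕ,
    Set.InjOn σ {i | i + 1 < n} →
    (∀ i, i + 1 < n → 1 ≤ σ i ∧ σ i ≤ n ∧ (2 * σ i + 1) ∣ (2 * k + 1 + 2 * i)) →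
    ∀ m : ℕ, 0 ≤ PowerSeries.coeff m (G k n - G (k + 1) (n - 1)) :=
  fun n k hn hk σ hinj hσ m => matching n k hk σ hinj hσ hn m

end Pool.Agent.Results.MP_667609_co.Matching
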