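import Mathlib
import Pool.Agent.Helper868_gq.B

set_option autoImplicit false

namespace Pool.Agent.Results.MP_667609_co.RowsTwoThree

open Pool.Agent.Helper868_gq

/-- For `n = 2` and `n = 3` and every `k ≥ n + 1` all coefficients of
`G_{k,n} - G_{k+1,n-1}` are non-negative. -/
theorem result : ∀ n k : ℕ, (n = 2 ∨ n = 3) → n + 1 ≤ k →
    ∀ m : ℕ, 0 ≤ PowerSeries.coeff m (G k n - G (k + 1) (n - 1)) := by
  rintro n k (rfl | rfl) hk m
  · exact case_two k hk m
  · exact case_three k hk m

end Pool.Agent.Results.MP_667609_co.RowsTwoThree
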