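import Pool.Agent.QDiff667609.Base

open PowerSeries Finset

namespace Pool.Agent.Results.MP_667609_co.SmallN

open Pool.Agent.MP667609

/-- For `n = 2, 3, 4` and every `k ≥ n + 1`, all coefficients of `G_{k,n} - G_{k+1,n-1}` are
nonnegative. -/
theorem result (n k : ℕ) (h2 : 2 ≤ n) (h4 : n ≤ 4) (hk : n + 1 ≤ k) (m : ℕ) :
    0 ≤ coeff m (G k n - G (k + 1) (n - 1)) :=
  small_n G (fun k n _ => G_mul k n) n k h2 h4 hk m

end Pool.Agent.Results.MP_667609_co.SmallN
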